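import Pool.Agent.Helper68.EG.Main

set_option autoImplicit false

/-!
# Exponentially many rational plane curves meet a smooth cubic in one point

`numCurves a b d` is the number (in `ℕ ∪ {∞}`) of rational plane curves of degree `d` which meet the
smooth cubic `E : y² z = x³ + a x z² + b z³` in exactly one point. A rational curve of degree `d` is the
image of `ℙ¹` under a map given by three forms of degree `d` without common zero and injective
outside a finite set.

For every smooth cubic (`4 a³ + 27 b² ≠ 0`) and every `n ≥ 36` there is a degree `d` with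
`n ≤ d ≤ 41 n` and at least `2 ^ (d / 23)` such curves. So the number is at least `2 ^ (d / 23)` for
infinitely many `d`. More precisely, for every `k ≥ 2` there is a degree `d` between `9·4^k` and
`92·4^k` with at least `2 ^ (4·4^k)` such curves.

Idea of the proof. Let `m = 2^(k+1)`, `x ∘ [m] = P / (f U²)` and `y ∘ [m] = y W / (f² U³)` on `E`
(`f = x³ + a x + b`); the `6·4^k` roots of `W` are the abscissas of the points of exact order `2m`. Let
`J` be a set of roots of `W`. The product of the equations of the tangents of `E` at the points of `J`
is `B + A y`, with polynomials `A`, `B` in `x`. The rational curve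
`D : t ↦ (P / (f U²), - W B / (f² U³ A))` meets `E` only in the origin and the points of order two:
if `D(t)` is a point of `E` and `W(t) ≠ 0` then `(B + A y)(Q) = 0` for a point `Q` with `x(Q) = t`, and
`D(t) = m Q`. Doubling in the pencil of the cubics `y² = x³ + a x + β` (constant `a`) is a rational map
of the plane; it maps `D` to a rational curve which meets `E` only in the flex at infinity. The
curve has several branches there. One tangent is used twice; this gives a parameter which is
distinguished by the contact orders, and with Luroth's theorem the parametrisation is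
birational. At most `32·4^k` sets `J` give the same curve.
Modules: project EG (see the departures files for the provers).
-/

namespace Pool.Agent.Results.MP_8390a9_ag.ExponentialGrowth

open Pool.Agent.Helper19.ND

theorem result (a b : ℂ) (hab : 4 * a ^ 3 + 27 * b ^ 2 ≠ 0) :
    (∀ n : ℕ, 36 ≤ n → ∃ d : ℕ, n ≤ d ∧ d ≤ 41 * n ∧
      ((2 ^ (d / 23) : ℕ) : ℕ∞) ≤ numCurves a b d) ∧
    {d : ℕ | ((2 ^ (d / 23) : ℕ) : ℕ∞) ≤ numCurves a b d}.Infinite ∧
    (∀ k : ℕ, 2 ≤ k → ∃ d : ℕ, 9 * 4 ^ k ≤ d ∧ d ≤ 92 * 4 ^ k ∧
      ((2 ^ (4 * 4 ^ k) : ℕ) : ℕ∞) ≤ numCurves a b d) := by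
  refine ⟨fun n hn => Helper68.EG.main' hab hn, ?_, fun k hk => Helper68.EG.main hab hk⟩
  refine Set.infinite_of_forall_exists_gt fun n => ?_
  obtain ⟨d, h1, -, h3⟩ := Helper68.EG.main' hab (n := n + 36) (by omega)
  exact ⟨d, h3, by omega⟩

end Pool.Agent.Results.MP_8390a9_ag.ExponentialGrowth
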