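import Pool.Agent.Helper19.ND.Main

set_option autoImplicit false

/-!
# Rational curves meeting a smooth plane cubic in one point: a lower bound for every degree

`numCurves a b d` is the number (in `ℕ ∪ {∞}`) of rational plane curves of degree `d` which meet the
smooth cubic `y² z = x³ + a x z² + b z³` in exactly one point. A rational curve of degree `d` is the
image of `ℙ¹` under a map given by three forms of degree `d` without common zero and injective
outside a finite set.

For every smooth cubic (`4 a³ + 27 b² ≠ 0`) and every `d ≥ 5` the number is at least
`144 (d² - 1)`, and at least `144 d²` if `3` does not divide `d + 1`.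

Idea of the proof. The cyclic cubic surface `F(x, y, z) = w³` has three lines over each of the nine
flex tangents of the cubic `F = 0`. The planes through the line `x = w, z = 0` cut out the conics
`y² = f(X) z² + f'(X) z w + 3 X w²`, `X = (x - w)/z`. For a point `P` of the cubic with
`3 d P = 0`, `d P ≠ 0`, `(d + 1) P ≠ 0` a function with divisor `d (-P) + (d P) - (d + 1) O` gives two
polynomial solutions with `w = (X - x(P))^d`, i.e. two rational curves of degree `d` which meet the
cubic only in `P`. There are at least `8 d² - 8` such points, and translations by the nine points
of order dividing `3` are linear maps of the plane. All the curves are different: a curve which is a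
section for two different lines of the cubic surface has degree at most 4.
Modules: project ND (see the departures files for the provers).
-/

namespace Pool.Agent.Results.MP_8390a9_ag.QuadraticLowerBound

open Pool.Agent.Helper19.ND

theorem result (a b : ℂ) (hab : 4 * a ^ 3 + 27 * b ^ 2 ≠ 0) (d : ℕ) (hd : 5 ≤ d) :
    ((144 * (d ^ 2 - 1) : ℕ) : ℕ∞) ≤ numCurves a b d ∧
      (¬ 3 ∣ d + 1 → ((144 * d ^ 2 : ℕ) : ℕ∞) ≤ numCurves a b d) :=
  main hab hd

end Pool.Agent.Results.MP_8390a9_ag.QuadraticLowerBound
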